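import Pool.Agent.W315.LB.Stm

/-!
# LB2: connected `r`-graphs without nontrivial tight cuts are bipartite or bicritical
-/

set_option autoImplicit false
set_option linter.unusedSectionVars false

namespace Pool.Agent.W427.LB

open Finset H76FC H76TX H76TY Pool.Agent.W315.LB

theorem core {V : Type} [Fintype V] [DecidableEq V] {r : ℕ} {p : V → V → ℕ} (hr : 1 ≤ r)
    (hG : RGraph r p) (hT : NoTight r p) (hc : (gr p).Connected) {ι : Type}
    (C : Finset ι) (A : ι → Finset V) (S : Finset V) (hS : 2 ≤ S.card) (hSC : S.card ≤ C.card)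
    (hodd : ∀ c ∈ C, Odd (A c).card) (hdS : ∀ c ∈ C, Disjoint (A c) S)
    (hd : ∀ c ∈ C, ∀ c' ∈ C, c ≠ c' → Disjoint (A c) (A c'))
    (hout : ∀ c ∈ C, ∀ x ∈ A c, ∀ y, 0 < p x y → y ∈ A c ∨ y ∈ S) :
    ∃ Z : Finset V, Fintype.card V ≤ 2 * Z.card ∧ ∀ u ∈ Z, ∀ v ∈ Z, p u v = 0 := by
  classical
  -- the cuts
  have hcut : ∀ c ∈ C, cut p (A c) = ∑ x ∈ A c, ∑ y ∈ S, p x y := by
    intro c hcC
    unfold cut
    refine Finset.sum_congr rfl fun x hx => ?_
    symm
    refine Finset.sum_subset (fun y hy => ?_) fun y hy hyS => ?_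
    · rw [Finset.mem_compl]
      intro h
      exact (Finset.disjoint_left.1 (hdS c hcC) h) hy
    · by_contra hne
      rcases hout c hcC x hx y (Nat.pos_of_ne_zero hne) with h | h
      · exact (Finset.mem_compl.1 hy) h
      · exact hyS h
  set Z : Finset V := C.biUnion A with hZ
  have hpd : (C : Set ι).PairwiseDisjoint A := by
    intro c hc c' hc' hne
    exact hd c (Finset.mem_coe.1 hc) c' (Finset.mem_coe.1 hc') hne
  have h1 : C.card * r ≤ ∑ c ∈ C, cut p (A c) := by
    rw [← smul_eq_mul]
    exact Finset.card_nsmul_le_sum _ _ _ fun c hcC => hG.odd _ (hodd c hcC)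
  have h2 : ∑ c ∈ C, cut p (A c) = ∑ x ∈ Z, ∑ y ∈ S, p x y := by
    rw [hZ, Finset.sum_biUnion hpd]
    exact Finset.sum_congr rfl hcut
  have h3 : ∑ x : V, ∑ y ∈ S, p x y = S.card * r := by
    rw [Finset.sum_comm]
    rw [Finset.sum_congr rfl (fun y _ => ?_)]
    · rw [Finset.sum_const, smul_eq_mul]
    · rw [← hG.reg y]
      exact Finset.sum_congr rfl fun x _ => hG.symm x y
  have h4 : ∑ x ∈ Z, ∑ y ∈ S, p x y + ∑ x ∈ Zᶜ, ∑ y ∈ S, p x y = ∑ x : V, ∑ y ∈ S, p x y :=
    Finset.sum_add_sum_compl Z _
  have h5 : S.card * r ≤ C.card * r := Nat.mul_le_mul_right r hSC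
  have h6 : ∑ x ∈ Zᶜ, ∑ y ∈ S, p x y = 0 := by omega
  have h7 : ∑ c ∈ C, cut p (A c) = C.card * r := by omega
  have h8 : C.card = S.card := by
    have : C.card * r ≤ S.card * r := by omega
    exact le_antisymm (Nat.le_of_mul_le_mul_right this (by omega)) hSC
  have hcr : ∀ c ∈ C, cut p (A c) = r := by
    have h9 : ∑ c ∈ C, r = ∑ c ∈ C, cut p (A c) := by
      rw [h7, Finset.sum_const, smul_eq_mul]
    intro c hcC
    exact ((Finset.sum_eq_sum_iff_of_le fun c hcC => hG.odd _ (hodd c hcC)).1 h9 c hcC).symm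
  have hcard1 : ∀ c ∈ C, (A c).card = 1 := by
    intro c hcC
    rcases hT (A c) (hodd c hcC) (hcr c hcC) with h | h
    · exact h
    · exfalso
      have h10 : S ⊆ (A c)ᶜ := by
        intro x hx
        rw [Finset.mem_compl]
        intro hxA
        exact (Finset.disjoint_left.1 (hdS c hcC) hxA) hx
      have := Finset.card_le_card h10
      omega
  have hZcard : Z.card = C.card := by
    rw [hZ, Finset.card_biUnion hpd, Finset.sum_congr rfl hcard1, Finset.sum_const, smul_eq_mul,
      mul_one]
  -- no edges from `S` to the complement of `Z`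
  have hSZ : ∀ x ∈ S, ∀ y, 0 < p x y → y ∈ Z := by
    intro x hx y hxy
    by_contra hyZ
    have h11 := Finset.sum_eq_zero_iff.1 h6 y (Finset.mem_compl.2 hyZ)
    have h12 := Finset.sum_eq_zero_iff.1 h11 x hx
    rw [hG.symm y x] at h12
    omega
  -- closed under adjacency
  have hcl : ∀ x y, (gr p).Adj x y → x ∈ S ∪ Z → y ∈ S ∪ Z := by
    intro x y hxy hx
    have hpos : 0 < p x y := by
      rw [gr, SimpleGraph.fromRel_adj] at hxy
      rcases hxy.2 with h | h
      · exact h
      · rwa [hG.symm x y]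
    rw [Finset.mem_union] at hx ⊢
    rcases hx with hx | hx
    · exact Or.inr (hSZ x hx y hpos)
    · rw [hZ, Finset.mem_biUnion] at hx
      obtain ⟨c, hcC, hxc⟩ := hx
      rcases hout c hcC x hxc y hpos with h | h
      · right
        rw [hZ, Finset.mem_biUnion]
        exact ⟨c, hcC, h⟩
      · exact Or.inl h
  have hall : ∀ y, y ∈ S ∪ Z := by
    obtain ⟨s, hs⟩ : S.Nonempty := Finset.card_pos.1 (by omega)
    intro y
    obtain ⟨w⟩ := hc.preconnected s y
    have hw : ∀ (a b : V) (w : (gr p).Walk a b), a ∈ S ∪ Z → b ∈ S ∪ Z := by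
      intro a b w
      induction w with
      | nil => exact id
      | cons h _ ih => exact fun ha => ih (hcl _ _ h ha)
    exact hw s y w (Finset.mem_union_left _ hs)
  refine ⟨Z, ?_, ?_⟩
  · have h13 : Fintype.card V ≤ (S ∪ Z).card := by
      rw [← Finset.card_univ]
      exact Finset.card_le_card fun y _ => hall y
    have h14 := Finset.card_union_le S Z
    omega
  · intro x hx y hy
    by_contra hne
    rw [hZ, Finset.mem_biUnion] at hx hy
    obtain ⟨c, hcC, hxc⟩ := hx
    obtain ⟨c', hcC', hyc⟩ := hy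
    rcases hout c hcC x hxc y (Nat.pos_of_ne_zero hne) with h | h
    · obtain ⟨a, ha⟩ := Finset.card_eq_one.1 (hcard1 c hcC)
      rw [ha, Finset.mem_singleton] at hxc h
      rw [hxc, h, hG.loopless] at hne
      exact hne rfl
    · exact (Finset.disjoint_left.1 (hdS c' hcC') hyc) h

theorem even_card {V : Type} [Fintype V] [DecidableEq V] {r : ℕ} {p : V → V → ℕ} (hr : 1 ≤ r)
    (hG : RGraph r p) : Even (Fintype.card V) := by
  by_contra hcon
  rw [Nat.not_even_iff_odd] at hcon
  have h1 := hG.odd univ (by rwa [Finset.card_univ])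
  unfold cut at h1
  simp at h1
  omega

theorem bicrit : S_bicrit := by
  intro V _ _ r p _ hr hG hT hc
  classical
  by_cases hZ : ∃ Z : Finset V, Fintype.card V ≤ 2 * Z.card ∧ ∀ u ∈ Z, ∀ v ∈ Z, p u v = 0
  · exact Or.inl hZ
  right
  intro u v huv
  let G : SimpleGraph {x : V // x ≠ u ∧ x ≠ v} :=
    { Adj := fun x y => 0 < p x y
      symm := ⟨fun x y h => by rw [hG.symm y x]; exact h⟩
      loopless := ⟨fun x h => by rw [hG.loopless x] at h; exact lt_irrefl 0 h⟩ }
  have key : ∀ T : Set {x : V // x ≠ u ∧ x ≠ v}, ¬ G.IsTutteViolator T := by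
    intro T hTv
    apply hZ
    unfold SimpleGraph.IsTutteViolator at hTv
    set W : G.Subgraph := (⊤ : G.Subgraph).deleteVerts T with hW
    have hWv : ∀ x, x ∈ W.verts ↔ x ∉ T := by
      intro x; simp [hW]
    let B : W.coe.ConnectedComponent → Finset {x : V // x ≠ u ∧ x ≠ v} := fun c =>
      univ.filter fun x => ∃ h : x ∈ W.verts, (⟨x, h⟩ : W.verts) ∈ c.supp
    have hBmem : ∀ c x, x ∈ B c ↔ ∃ h : x ∈ W.verts, (⟨x, h⟩ : W.verts) ∈ c.supp := by
      intro c x
      simp only [B, Finset.mem_filter, Finset.mem_univ, true_and]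
    have hBcard : ∀ c, (B c).card = c.supp.ncard := by
      intro c
      rw [← Set.ncard_image_of_injective c.supp Subtype.val_injective, ← Set.ncard_coe_finset]
      congr 1
      ext x
      simp [B]
    have hBdisj : ∀ c c' x, x ∈ B c → x ∈ B c' → c = c' := by
      intro c c' x h1 h2
      rw [hBmem] at h1 h2
      obtain ⟨h, h3⟩ := h1
      obtain ⟨h', h4⟩ := h2
      rw [SimpleGraph.ConnectedComponent.mem_supp_iff] at h3 h4
      rw [← h3, ← h4]
    let C : Finset W.coe.ConnectedComponent := univ.filter fun c => Odd c.supp.ncard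
    have hCcard : C.card = W.coe.oddComponents.ncard := by
      rw [← Set.ncard_coe_finset]
      congr 1
      ext c; simp [C]
    let Tf : Finset {x : V // x ≠ u ∧ x ≠ v} := univ.filter fun x => x ∈ T
    have hTf : Tf.card = T.ncard := by
      rw [← Set.ncard_coe_finset]
      congr 1
      ext x; simp [Tf]
    let S : Finset V := insert u (insert v (Tf.map (Function.Embedding.subtype _)))
    have hScard : S.card = T.ncard + 2 := by
      have h1 : v ∉ Tf.map (Function.Embedding.subtype _) := by
        rw [Finset.mem_map]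
        rintro ⟨x, -, hx⟩
        exact x.2.2 hx
      have h2 : u ∉ insert v (Tf.map (Function.Embedding.subtype _)) := by
        rw [Finset.mem_insert, Finset.mem_map]
        rintro (h | ⟨x, -, hx⟩)
        · exact huv h
        · exact x.2.1 hx
      simp only [S]
      rw [Finset.card_insert_of_notMem h2, Finset.card_insert_of_notMem h1, Finset.card_map, hTf]
    -- parity
    have hparity : T.ncard + 2 ≤ C.card := by
      have h1 := W.coe.odd_ncard_oddComponents
      have h2 : Nat.card W.verts = Tᶜ.ncard := by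
        rw [Nat.card_coe_set_eq]
        congr 1
        ext x
        rw [hWv]
        rfl
      have h3 := Set.ncard_add_ncard_compl T
      have h4 : Nat.card {x : V // x ≠ u ∧ x ≠ v} + 2 = Fintype.card V := by
        rw [Nat.card_eq_fintype_card, Fintype.card_subtype]
        have h5 : (univ.filter fun x : V => x ≠ u ∧ x ≠ v) = (univ.erase v).erase u := by
          ext x
          simp [and_comm]
        have hv : v ∈ (univ : Finset V) := Finset.mem_univ v
        have hu : u ∈ (univ : Finset V).erase v := Finset.mem_erase.2 ⟨huv, Finset.mem_univ u⟩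
        have c1 := Finset.card_erase_add_one hv
        have c2 := Finset.card_erase_add_one hu
        rw [h5, ← Finset.card_univ]
        omega
      have h6 := even_card hr hG
      rw [h2] at h1
      rw [← hCcard] at h1 hTv
      rcases h6 with ⟨m, hm⟩
      by_contra hcon
      have h7 : C.card = T.ncard + 1 := by omega
      rw [h7] at h1
      by_cases h8 : Odd (T.ncard + 1)
      · have h9 := h1.1 h8
        rcases h8 with ⟨a, ha⟩
        rcases h9 with ⟨b, hb⟩
        omega
      · have h9 : ¬ Odd (Tᶜ.ncard) := fun h => h8 (h1.2 h)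
        rw [Nat.not_odd_iff_even] at h8 h9
        rcases h8 with ⟨a, ha⟩
        rcases h9 with ⟨b, hb⟩
        omega
    refine core hr hG hT hc C (fun c => (B c).map (Function.Embedding.subtype _)) S (by omega)
      (by omega) ?_ ?_ ?_ ?_
    · intro c hcC
      rw [Finset.card_map, hBcard]
      exact (Finset.mem_filter.1 hcC).2
    · intro c _
      rw [Finset.disjoint_left]
      intro x hx hxS
      rw [Finset.mem_map] at hx
      obtain ⟨y, hy, rfl⟩ := hx
      simp only [S, Finset.mem_insert, Finset.mem_map] at hxS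
      rcases hxS with h | h | ⟨z, hz, h⟩
      · exact y.2.1 h
      · exact y.2.2 h
      · have hzy : z = y := Subtype.ext h
        rw [hzy] at hz
        have hyT : y ∈ T := (Finset.mem_filter.1 hz).2
        obtain ⟨h', -⟩ := (hBmem c y).1 hy
        exact (hWv y).1 h' hyT
    · intro c _ c' _ hne
      rw [Finset.disjoint_left]
      intro x hx hx'
      rw [Finset.mem_map] at hx hx'
      obtain ⟨y, hy, rfl⟩ := hx
      obtain ⟨z, hz, h⟩ := hx'
      have hzy : z = y := Subtype.ext h
      rw [hzy] at hz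
      exact hne (hBdisj c c' y hy hz)
    · intro c _ x hx y hxy
      rw [Finset.mem_map] at hx
      obtain ⟨x', hx', rfl⟩ := hx
      by_cases hyu : y = u
      · right
        simp only [S, Finset.mem_insert]
        exact Or.inl hyu
      by_cases hyv : y = v
      · right
        simp only [S, Finset.mem_insert]
        exact Or.inr (Or.inl hyv)
      by_cases hyT : (⟨y, hyu, hyv⟩ : {x : V // x ≠ u ∧ x ≠ v}) ∈ T
      · right
        simp only [S, Finset.mem_insert, Finset.mem_map]
        exact Or.inr (Or.inr ⟨⟨y, hyu, hyv⟩, by simp [Tf, hyT], rfl⟩)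
      · left
        rw [Finset.mem_map]
        refine ⟨⟨y, hyu, hyv⟩, ?_, rfl⟩
        have hyW : (⟨y, hyu, hyv⟩ : {x : V // x ≠ u ∧ x ≠ v}) ∈ W.verts := (hWv _).2 hyT
        rw [hBmem] at hx' ⊢
        obtain ⟨hxW, hx2⟩ := hx'
        refine ⟨hyW, ?_⟩
        rw [SimpleGraph.ConnectedComponent.mem_supp_iff] at hx2 ⊢
        rw [← hx2]
        symm
        apply SimpleGraph.ConnectedComponent.sound
        apply SimpleGraph.Adj.reachable
        have hadj : G.Adj x' ⟨y, hyu, hyv⟩ := hxy
        have hxT : x' ∉ T := (hWv x').1 hxW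
        simp only [SimpleGraph.Subgraph.coe_adj, hW, SimpleGraph.Subgraph.deleteVerts_adj,
          SimpleGraph.Subgraph.verts_top, SimpleGraph.Subgraph.top_adj, Set.mem_univ]
        tauto
  obtain ⟨M, hM⟩ := SimpleGraph.tutte.2 key
  rw [SimpleGraph.Subgraph.isPerfectMatching_iff] at hM
  choose f hf1 hf2 using hM
  have hff : ∀ x, f (f x) = x := fun x => (hf2 (f x) x (hf1 x).symm).symm
  let N : V → V := fun x => if h : x ≠ u ∧ x ≠ v then (f ⟨x, h⟩ : V) else if x = u then v else u
  have hNu : N u = v := by simp [N]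
  have hNv : N v = u := by simp [N, huv.symm]
  have hNx : ∀ (x : V) (h : x ≠ u ∧ x ≠ v), N x = (f ⟨x, h⟩ : V) := by
    intro x h
    simp only [N]
    rw [dif_pos h]
  refine ⟨N, ?_, hNu, ?_⟩
  · intro x
    by_cases hxu : x = u
    · rw [hxu, hNu, hNv]
    by_cases hxv : x = v
    · rw [hxv, hNv, hNu]
    rw [hNx x ⟨hxu, hxv⟩, hNx _ (f ⟨x, hxu, hxv⟩).2]
    have := hff ⟨x, hxu, hxv⟩
    exact congrArg Subtype.val this
  · intro x hxu hxv
    rw [hNx x ⟨hxu, hxv⟩]
    exact M.adj_sub (hf1 ⟨x, hxu, hxv⟩)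

end Pool.Agent.W427.LB
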